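import Pool.Agent.Run7.h961.WU.MSIM

/-!
# Project WU (MP_688e31_pr), piece MEAS: measurability of the random forest
-/

set_option autoImplicit false

namespace Run7.h961.WU

open MeasureTheory Filter Finset Run7.h381.WU
open scoped ENNReal Topology unitInterval
open Pool.Agent.H424R3.Pow (graphSigma nbrAvg)

/-- a map with values in a discrete space has measurable fibres -/
def DM {Ω D : Type} [MeasurableSpace Ω] (g : Ω → D) : Prop := ∀ d, MeasurableSet {ω | g ω = d}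

section general

variable {Ω D D' : Type} [MeasurableSpace Ω]

lemma dm_bind [Countable D] {g : Ω → D} (hg : DM g) {S : D → Set Ω}
    (hS : ∀ d, MeasurableSet (S d)) : MeasurableSet {ω | ω ∈ S (g ω)} := by
  have h : {ω | ω ∈ S (g ω)} = ⋃ d, {ω | g ω = d} ∩ S d := by
    ext ω
    simp
  rw [h]
  exact MeasurableSet.iUnion fun d => (hg d).inter (hS d)

lemma dm_const (d : D) : DM (fun _ : Ω => d) := fun _ => MeasurableSet.const _

lemma dm_comp [Countable D] {g : Ω → D} (hg : DM g) (φ : D → D') : DM (fun ω => φ (g ω)) :=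
  fun d => dm_bind hg (S := fun a => {_ω | φ a = d}) fun _ => MeasurableSet.const _

lemma dm_pair {g : Ω → D} {g' : Ω → D'} (hg : DM g) (hg' : DM g') : DM (fun ω => (g ω, g' ω)) := by
  rintro ⟨d, d'⟩
  have h : {ω | (g ω, g' ω) = (d, d')} = {ω | g ω = d} ∩ {ω | g' ω = d'} := by
    ext ω
    simp
  rw [h]
  exact (hg d).inter (hg' d')

lemma meas_iff {P Q : Ω → Prop} (hP : MeasurableSet {ω | P ω}) (hQ : MeasurableSet {ω | Q ω}) :
    MeasurableSet {ω | P ω ↔ Q ω} :=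
  measurableSet_setOf.2 ((measurableSet_setOf.1 hP).iff (measurableSet_setOf.1 hQ))

lemma dm_finset [Countable D] {A : Ω → Finset D} (hA : ∀ a, MeasurableSet {ω | a ∈ A ω}) :
    DM A := by
  intro S
  have h : {ω | A ω = S} = ⋂ a : D, {ω | a ∈ A ω ↔ a ∈ S} := by
    ext ω
    simp [Finset.ext_iff]
  rw [h]
  exact MeasurableSet.iInter fun a => meas_iff (hA a) (MeasurableSet.const _)

lemma meas_and {P Q : Ω → Prop} (hP : MeasurableSet {ω | P ω}) (hQ : MeasurableSet {ω | Q ω}) :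
    MeasurableSet {ω | P ω ∧ Q ω} := hP.inter hQ

lemma meas_ex [Countable D] {P : D → Ω → Prop} (hP : ∀ d, MeasurableSet {ω | P d ω}) :
    MeasurableSet {ω | ∃ d, P d ω} := by
  have h : {ω | ∃ d, P d ω} = ⋃ d, {ω | P d ω} := by
    ext ω
    simp
  rw [h]
  exact MeasurableSet.iUnion hP

lemma meas_all [Countable D] {P : D → Ω → Prop} (hP : ∀ d, MeasurableSet {ω | P d ω}) :
    MeasurableSet {ω | ∀ d, P d ω} := by
  have h : {ω | ∀ d, P d ω} = ⋂ d, {ω | P d ω} := by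
    ext ω
    simp
  rw [h]
  exact MeasurableSet.iInter hP

lemma meas_imp {P Q : Ω → Prop} (hP : MeasurableSet {ω | P ω}) (hQ : MeasurableSet {ω | Q ω}) :
    MeasurableSet {ω | P ω → Q ω} := by
  have h : {ω | P ω → Q ω} = {ω | P ω}ᶜ ∪ {ω | Q ω} := by
    ext ω
    simp [imp_iff_not_or]
  rw [h]
  exact hP.compl.union hQ

end general

instance countable_sym2 {α : Type} [Countable α] : Countable (Sym2 α) :=
  inferInstanceAs (Countable (Quot (Sym2.Rel α)))

section forest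

variable {Ω V : Type} [MeasurableSpace Ω] [Countable V]
  {K : Finset (Sym2 ℕ) → Finset (Sym2 ℕ) → Finset (Sym2 ℕ) → I → Finset (Sym2 ℕ)}
  {G : Ω → SimpleGraph V} {R : Ω → ℕ → Setoid V} {ℓ : Ω → V → I} {ξ : Ω → V → ℕ → I}

lemma meas_edge (hG : ∀ x y, MeasurableSet {ω | (G ω).Adj x y}) (e : Sym2 V) :
    MeasurableSet {ω | e ∈ (G ω).edgeSet} := by
  induction e using Sym2.ind with
  | _ x y => simpa only [SimpleGraph.mem_edgeSet] using hG x y

lemma meas_ins (hG : ∀ x y, MeasurableSet {ω | (G ω).Adj x y}) (C : Finset V) (e : Sym2 V) :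
    MeasurableSet {ω | e ∈ ins (G ω) C} := by
  have h : {ω | e ∈ ins (G ω) C} = {ω | e ∈ C.sym2 ∧ e ∈ (G ω).edgeSet} := by
    ext ω
    simp [ins]
  rw [h]
  exact meas_and (MeasurableSet.const _) (meas_edge hG e)

lemma meas_Inn (hR : ∀ k x y, MeasurableSet {ω | R ω k x y}) (k : ℕ) (e : Sym2 V) :
    MeasurableSet {ω | e ∈ Inn (R ω k)} :=
  meas_all (P := fun a ω => a ∈ e → ∀ b ∈ e, R ω k a b) fun a =>
    meas_imp (MeasurableSet.const _) (meas_all fun b => meas_imp (MeasurableSet.const _) (hR k a b))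

lemma meas_class (hR : ∀ k x y, MeasurableSet {ω | R ω k x y}) (k : ℕ) (C : Finset V) :
    MeasurableSet {ω | IsClass (R ω k) C} :=
  meas_ex (P := fun v ω => ∀ w, w ∈ C ↔ R ω k v w) fun v =>
    meas_all fun w => meas_iff (MeasurableSet.const _) (hR k v w)

lemma dm_rk (hℓ : ∀ v, Measurable fun ω => ℓ ω v) (C : Finset V) (v : V) :
    DM fun ω => rk (ℓ ω) C v := by
  refine dm_comp (g := fun ω => C.filter (fun w => ℓ ω w < ℓ ω v)) (dm_finset fun a => ?_)
    Finset.card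
  simp only [Finset.mem_filter]
  exact meas_and (MeasurableSet.const _) (measurableSet_lt (hℓ a) (hℓ v))

lemma dm_map (hℓ : ∀ v, Measurable fun ω => ℓ ω v) (C : Finset V) (e : Sym2 V) :
    DM fun ω => Sym2.map (rk (ℓ ω) C) e := by
  induction e using Sym2.ind with
  | _ x y =>
    simp only [Sym2.map_mk]
    exact dm_comp (dm_pair (dm_rk hℓ C x) (dm_rk hℓ C y)) (fun p => s(p.1, p.2))

lemma dm_rkI (hℓ : ∀ v, Measurable fun ω => ℓ ω v) (C : Finset V) {E : Ω → Finset (Sym2 V)}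
    (hE : ∀ e, MeasurableSet {ω | e ∈ E ω}) : DM fun ω => rkI (ℓ ω) C (E ω) := by
  refine dm_finset fun f => ?_
  have h : {ω | f ∈ rkI (ℓ ω) C (E ω)} =
      {ω | ∃ e : Sym2 V, e ∈ E ω ∧ Sym2.map (rk (ℓ ω) C) e = f} := by
    ext ω
    simp [rkI]
  rw [h]
  exact meas_ex fun e => meas_and (hE e) (dm_map hℓ C e f)

lemma meas_filter {E : Ω → Finset (Sym2 V)} (hE : ∀ e, MeasurableSet {ω | e ∈ E ω})
    {S : Ω → Set (Sym2 V)} (hS : ∀ e, MeasurableSet {ω | e ∈ S ω})
    [∀ ω, DecidablePred (· ∈ S ω)] (e : Sym2 V) :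
    MeasurableSet {ω | e ∈ (E ω).filter (· ∈ S ω)} := by
  simp only [Finset.mem_filter]
  exact meas_and (hE e) (hS e)

lemma meas_Tk (hK : IsKernel K) (hG : ∀ x y, MeasurableSet {ω | (G ω).Adj x y})
    (hR : ∀ k x y, MeasurableSet {ω | R ω k x y}) (hℓ : ∀ v, Measurable fun ω => ℓ ω v)
    (hξ : ∀ v k, Measurable fun ω => ξ ω v k) (k : ℕ) :
    ∀ e : Sym2 V, MeasurableSet {ω | e ∈ Tk K (G ω) (R ω) (ℓ ω) (ξ ω) k} := by
  classical
  induction k with
  | zero => exact fun e => MeasurableSet.const _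
  | succ k ih =>
    intro e
    refine meas_ex (P := fun C ω => IsClass (R ω (k + 1)) C ∧ e ∈ ins (G ω) C ∧
      ∃ v ∈ C, rk (ℓ ω) C v = 0 ∧ Sym2.map (rk (ℓ ω) C) e ∈
        K (rkI (ℓ ω) C (ins (G ω) C)) (rkI (ℓ ω) C ((ins (G ω) C).filter (· ∈ Inn (R ω k))))
          (rkI (ℓ ω) C ((ins (G ω) C).filter (· ∈ Tk K (G ω) (R ω) (ℓ ω) (ξ ω) k)))
          (ξ ω v (k + 1))) fun C => ?_
    refine meas_and (meas_class hR _ C) (meas_and (meas_ins hG C e) (meas_ex fun v =>
      meas_and (MeasurableSet.const _) (meas_and (dm_rk hℓ C v 0) ?_)))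
    have h1 : DM fun ω => (Sym2.map (rk (ℓ ω) C) e, rkI (ℓ ω) C (ins (G ω) C),
        rkI (ℓ ω) C ((ins (G ω) C).filter (· ∈ Inn (R ω k))),
        rkI (ℓ ω) C ((ins (G ω) C).filter (· ∈ Tk K (G ω) (R ω) (ℓ ω) (ξ ω) k))) :=
      dm_pair (dm_map hℓ C e) (dm_pair (dm_rkI hℓ C (meas_ins hG C)) (dm_pair
        (dm_rkI hℓ C (meas_filter (meas_ins hG C) (meas_Inn hR k)))
        (dm_rkI hℓ C (meas_filter (meas_ins hG C) ih))))
    refine dm_bind h1 (S := fun d => {ω | d.1 ∈ K d.2.1 d.2.2.1 d.2.2.2 (ξ ω v (k + 1))}) fun d => ?_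
    have h2 : {ω | d.1 ∈ K d.2.1 d.2.2.1 d.2.2.2 (ξ ω v (k + 1))} =
        ⋃ T : Finset (Sym2 ℕ), ({_ω | d.1 ∈ T} ∩
          (fun ω => ξ ω v (k + 1)) ⁻¹' {x | K d.2.1 d.2.2.1 d.2.2.2 x = T}) := by
      ext ω
      simp
    rw [h2]
    exact MeasurableSet.iUnion fun T => (MeasurableSet.const _).inter
      (hξ v (k + 1) (hK.meas _ _ _ T))

lemma meas_Tlim (hK : IsKernel K) (hG : ∀ x y, MeasurableSet {ω | (G ω).Adj x y})
    (hR : ∀ k x y, MeasurableSet {ω | R ω k x y}) (hℓ : ∀ v, Measurable fun ω => ℓ ω v)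
    (hξ : ∀ v k, Measurable fun ω => ξ ω v k) (e : Sym2 V) :
    MeasurableSet {ω | e ∈ Tlim K (G ω) (R ω) (ℓ ω) (ξ ω)} :=
  meas_ex (P := fun n ω => ∀ k, n ≤ k → e ∈ Tk K (G ω) (R ω) (ℓ ω) (ξ ω) k) fun n =>
    meas_all fun k => meas_imp (MeasurableSet.const _) (meas_Tk hK hG hR hℓ hξ k e)

end forest

theorem MEAS : S_MEAS := by
  intro K hK c N V _ e
  let _ : MeasurableSpace (SimpleGraph V) := graphSigma V
  have h21 : Measurable fun p : SimpleGraph V × ((V → ℕ → I) × (V → ℕ → I)) => p.2.1 :=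
    measurable_fst.comp measurable_snd
  have h22 : Measurable fun p : SimpleGraph V × ((V → ℕ → I) × (V → ℕ → I)) => p.2.2 :=
    measurable_snd.comp measurable_snd
  have ha : ∀ v k, Measurable fun p : SimpleGraph V × ((V → ℕ → I) × (V → ℕ → I)) =>
      p.2.1 v k := fun v k =>
    (measurable_pi_apply k).comp ((measurable_pi_apply v).comp h21)
  have hx : ∀ v k, Measurable fun p : SimpleGraph V × ((V → ℕ → I) × (V → ℕ → I)) =>
      p.2.2 v k := fun v k =>
    (measurable_pi_apply k).comp ((measurable_pi_apply v).comp h22)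
  have hG : ∀ x y, MeasurableSet {p : SimpleGraph V × ((V → ℕ → I) × (V → ℕ → I)) |
      p.1.Adj x y} := fun x y => measurable_fst (meas_adj x y)
  have hR : ∀ k x y, MeasurableSet {p : SimpleGraph V × ((V → ℕ → I) × (V → ℕ → I)) |
      RR c N p.1 p.2.1 k x y} := by
    intro k x y
    cases k with
    | zero => exact MeasurableSet.const (x = y)
    | succ k =>
      refine meas_all (P := fun j (p : SimpleGraph V × ((V → ℕ → I) × (V → ℕ → I))) => k ≤ j →
        sim (c j) (N j) p.1 (fun v => p.2.1 v (j + 1)) x y) fun j =>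
        meas_imp (MeasurableSet.const _) ?_
      have h1 : Measurable fun p : SimpleGraph V × ((V → ℕ → I) × (V → ℕ → I)) =>
          (p.1, fun v => p.2.1 v (j + 1)) :=
        measurable_fst.prodMk (measurable_pi_lambda _ fun v => ha v (j + 1))
      exact h1 (MSIM V (c j) (N j) x y)
  exact meas_Tlim hK hG hR (fun v => ha v 0) hx e

end Run7.h961.WU
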