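import Pool.Agent.Run7.h381.WU.Stm

/-!
# Project WU (MP_688e31_pr), piece MSIM: measurability of the relations `sim`
-/

set_option autoImplicit false

namespace Run7.h961.WU

open MeasureTheory Filter Finset Run7.h381.WU
open scoped ENNReal Topology unitInterval
open Pool.Agent.H424R3.Pow (graphSigma nbrAvg)

variable {V : Type}

/-- the adjacency events are measurable -/
lemma meas_adj (x y : V) : @MeasurableSet _ (graphSigma V) {G : SimpleGraph V | G.Adj x y} :=
  MeasurableSpace.measurableSet_generateFrom ⟨x, y, rfl⟩

/-- the event that the neighbourhood of `x` is a given finite set -/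
lemma meas_nbr [Countable V] (x : V) (S : Finset V) :
    @MeasurableSet _ (graphSigma V) {G : SimpleGraph V | G.neighborSet x = (S : Set V)} := by
  letI : MeasurableSpace (SimpleGraph V) := graphSigma V
  have h : {G : SimpleGraph V | G.neighborSet x = (S : Set V)} =
      ⋂ y : V, {G : SimpleGraph V | G.Adj x y ↔ y ∈ S} := by
    ext G
    simp only [Set.mem_setOf_eq, Set.mem_iInter, Set.ext_iff, SimpleGraph.mem_neighborSet,
      Finset.mem_coe]
  rw [h]
  refine MeasurableSet.iInter fun y => ?_
  by_cases hy : y ∈ S
  · have h1 := meas_adj (V := V) x y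
    simp only [hy, iff_true]
    exact h1
  · have h1 := (meas_adj (V := V) x y).compl
    simp only [hy, iff_false]
    exact h1

/-- one step of the walk preserves measurability -/
lemma meas_nbrAvg [Countable V] (F : SimpleGraph V → V → ℝ)
    (hF : ∀ y, @Measurable _ _ (graphSigma V) _ (fun G => F G y)) (x : V) :
    @Measurable _ _ (graphSigma V) _ (fun G => nbrAvg G (F G) x) := by
  letI : MeasurableSpace (SimpleGraph V) := graphSigma V
  intro B hB
  have h : (fun G : SimpleGraph V => nbrAvg G (F G) x) ⁻¹' B =
      (⋃ S : Finset V, {G : SimpleGraph V | G.neighborSet x = (S : Set V)} ∩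
        (fun G => (∑ y ∈ S, F G y) / (S.card : ℝ)) ⁻¹' B) ∪
      ((⋃ S : Finset V, {G : SimpleGraph V | G.neighborSet x = (S : Set V)})ᶜ ∩
        {_G | (0 : ℝ) ∈ B}) := by
    ext G
    simp only [Set.mem_preimage, Set.mem_union, Set.mem_iUnion, Set.mem_inter_iff,
      Set.mem_setOf_eq, Set.mem_compl_iff]
    by_cases hG : (G.neighborSet x).Finite
    · obtain ⟨S, hS⟩ := hG.exists_finset_coe
      have hval : ∀ S : Finset V, G.neighborSet x = (S : Set V) →
          nbrAvg G (F G) x = (∑ y ∈ S, F G y) / (S.card : ℝ) := by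
        intro S hS
        unfold nbrAvg
        rw [hS, finsum_mem_coe_finset, Set.ncard_coe_finset]
      constructor
      · intro h
        exact Or.inl ⟨S, hS.symm, by rw [← hval S hS.symm]; exact h⟩
      · rintro (⟨S', hS', h⟩ | ⟨h, -⟩)
        · rw [hval S' hS']; exact h
        · exact (h ⟨S, hS.symm⟩).elim
    · have h0 : nbrAvg G (F G) x = 0 := by
        unfold nbrAvg
        rw [Set.Infinite.ncard hG]
        simp
      have hno : ¬ ∃ S : Finset V, G.neighborSet x = (S : Set V) := by
        rintro ⟨S, hS⟩
        exact hG (hS ▸ S.finite_toSet)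
      rw [h0]
      constructor
      · intro h
        exact Or.inr ⟨hno, h⟩
      · rintro (⟨S', hS', -⟩ | ⟨-, h⟩)
        · exact (hno ⟨S', hS'⟩).elim
        · exact h
  rw [h]
  refine MeasurableSet.union (MeasurableSet.iUnion fun S => (meas_nbr x S).inter ?_)
    ((MeasurableSet.iUnion fun S => meas_nbr x S).compl.inter (MeasurableSet.const _))
  exact ((Finset.measurable_sum S fun y _ => hF y).div_const _) hB

/-- the iterates of one step -/
lemma meas_iter [Countable V] (g : V → ℝ) (t : ℕ) (x : V) :
    @Measurable _ _ (graphSigma V) _ (fun G => (nbrAvg G)^[t] g x) := by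
  letI : MeasurableSpace (SimpleGraph V) := graphSigma V
  induction t generalizing x with
  | zero => simpa using (measurable_const : Measurable fun _ : SimpleGraph V => g x)
  | succ t ih =>
    simp only [Function.iterate_succ_apply']
    exact meas_nbrAvg (fun G => (nbrAvg G)^[t] g) ih x

/-- the averaged law of the walk -/
lemma meas_hh [Countable V] (N : ℕ) (x w : V) :
    @Measurable _ _ (graphSigma V) _ (fun G => hh G N x w) := by
  letI : MeasurableSpace (SimpleGraph V) := graphSigma V
  unfold hh GA
  exact (Finset.measurable_sum _ fun t _ => meas_iter _ t x).div_const _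

/-- the chosen vertices -/
lemma meas_SS [Countable V] (c : ℝ) (N : ℕ) (x w : V) :
    @MeasurableSet (SimpleGraph V × (V → I)) (@Prod.instMeasurableSpace _ _ (graphSigma V) _)
      {p | w ∈ SS c N p.1 p.2 x} := by
  letI : MeasurableSpace (SimpleGraph V) := graphSigma V
  have h1 : Measurable fun p : SimpleGraph V × (V → I) => ((p.2 w : I) : ℝ) :=
    measurable_subtype_coe.comp ((measurable_pi_apply w).comp measurable_snd)
  have h2 : Measurable fun p : SimpleGraph V × (V → I) => c * hh p.1 N x w :=
    ((meas_hh N x w).comp measurable_fst).const_mul c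
  exact measurableSet_lt h1 h2

theorem MSIM : S_MSIM := by
  intro V _ c N x y
  letI : MeasurableSpace (SimpleGraph V) := graphSigma V
  have h : {p : SimpleGraph V × (V → I) | sim c N p.1 p.2 x y} =
      {_p | x = y} ∪ ((⋂ w : V, {p | w ∈ SS c N p.1 p.2 x ↔ w ∈ SS c N p.1 p.2 y}) ∩
        ⋃ w : V, {p | w ∈ SS c N p.1 p.2 x}) := by
    ext p
    simp only [Set.mem_setOf_eq, Set.mem_union, Set.mem_inter_iff, Set.mem_iInter, Set.mem_iUnion]
    change (x = y ∨ (SS c N p.1 p.2 x = SS c N p.1 p.2 y ∧ (SS c N p.1 p.2 x).Nonempty)) ↔ _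
    rw [Set.ext_iff]
    rfl
  rw [h]
  refine (MeasurableSet.const _).union ((MeasurableSet.iInter fun w => ?_).inter
    (MeasurableSet.iUnion fun w => meas_SS c N x w))
  exact measurableSet_setOf.2
    ((measurableSet_setOf.1 (meas_SS c N x w)).iff (measurableSet_setOf.1 (meas_SS c N y w)))

end Run7.h961.WU
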